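import Pool.Agent.H82.EUC.Stmts2

set_option autoImplicit false

namespace Pool.EUC

theorem mtj_thm (h : MET_S) : MTJ_S := by
  intro A _ dM dW hM hW μ0 μ2 V G f hf S T U hU
  obtain ⟨ρ, hs, hm⟩ := h A dM dW hM hW (f S).1 (f T).1 (f S).2.1 (f T).2.1
  have h0 : WLe dW μ0 ρ := by
    intro w
    rw [hm.1 w]
    exact max_le ((f S).2.2.1 w) ((f T).2.2.1 w)
  have h2 : WLe dW ρ μ2 := by
    intro w
    rw [hm.1 w]
    exact ((f S).2.2.2 w).trans (le_max_left _ _)
  obtain ⟨R, hR⟩ : ∃ R, R = f.symm ⟨ρ, hs, h0, h2⟩ := ⟨_, rfl⟩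
  have hfR : (f R).1 = ρ := by rw [hR, Equiv.apply_symm_apply]
  have hRS : R.1 ⊆ S.1 := by
    rw [hf, hfR]
    intro w
    rw [hm.1 w]
    exact le_max_left _ _
  have hRT : R.1 ⊆ T.1 := by
    rw [hf, hfR]
    intro w
    rw [hm.1 w]
    exact le_max_right _ _
  have hRU : R.1 ⊆ U.1 := by
    rw [hU]
    exact Set.subset_inter hRS hRT
  have hUS : U.1 ⊆ S.1 := by rw [hU]; exact Set.inter_subset_left
  have hUT : U.1 ⊆ T.1 := by rw [hU]; exact Set.inter_subset_right
  rw [hf] at hRU hUS hUT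
  rw [hfR] at hRU
  have e : ρ.symm = (f U).1.symm := by
    apply Equiv.ext
    intro w
    apply hW w
    apply le_antisymm
    · rw [hm.1 w]
      exact max_le (hUS w) (hUT w)
    · exact hRU w
  have e2 : ρ = (f U).1 := by
    have := congrArg Equiv.symm e
    simpa using this
  rw [← e2]
  exact hm

theorem mti_thm (h : MET_S) : MTI_S := by
  intro A _ dM dW hM hW V G f hf S T U hU
  obtain ⟨ρ, hs, hm⟩ := h A dM dW hM hW (f S).1 (f T).1 (f S).2 (f T).2
  obtain ⟨R, hR⟩ : ∃ R, R = f.symm ⟨ρ, hs⟩ := ⟨_, rfl⟩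
  have hfR : (f R).1 = ρ := by rw [hR, Equiv.apply_symm_apply]
  have hRS : R.1 ⊆ S.1 := by
    rw [hf, hfR]
    intro w
    rw [hm.1 w]
    exact le_max_left _ _
  have hRT : R.1 ⊆ T.1 := by
    rw [hf, hfR]
    intro w
    rw [hm.1 w]
    exact le_max_right _ _
  have hRU : R.1 ⊆ U.1 := by
    rw [hU]
    exact Set.subset_inter hRS hRT
  have hUS : U.1 ⊆ S.1 := by rw [hU]; exact Set.inter_subset_left
  have hUT : U.1 ⊆ T.1 := by rw [hU]; exact Set.inter_subset_right
  rw [hf] at hRU hUS hUT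
  rw [hfR] at hRU
  have e : ρ.symm = (f U).1.symm := by
    apply Equiv.ext
    intro w
    apply hW w
    apply le_antisymm
    · rw [hm.1 w]
      exact max_le (hUS w) (hUT w)
    · exact hRU w
  have e2 : ρ = (f U).1 := by
    have := congrArg Equiv.symm e
    simpa using this
  rw [← e2]
  exact hm

end Pool.EUC
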